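import Pool.Agent.Q49.BR.Red

/-!
# The motivic monodromy conjecture for ideals: reduction to linear forms and binomials

Let `o` be the parent map of a forest on the nodes `0, …, κ - 1` (parents come before their children,
`o m = none` for a root), with labels `v m ∈ {1, …, n}`. Consider the ideals of
`ℂ[x_1, …, x_n, z_1, …, z_κ]` generated by

`z_m - z_(o m) x_(v m)`, `m < κ` (where `z_none = 1`), and `∑_m c_(j, m) z_m`, `j < r`.

The conjecture Q1 for the local motivic zeta function at the origin, for all nonzero ideals of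
polynomial rings which vanish at the origin, is equivalent to its case of these ideals, and even of those
with log canonical threshold at the origin larger than any given `N`. If the coefficients of the
generators of `I` are in the additive group generated by a set `S` (which contains `1`), the `c_(j, m)`
can be taken from `S ∪ -S ∪ {0}`. So for the ideals with integral generators the conjecture is
equivalent to its case of ideals generated by linear forms and binomials with coefficients `0`, `1`, `-1`.

Method. Horner's scheme of the generators `f_j` along a forest shows that the ideal `(f, z_1, …, z_κ)`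
becomes the ideal of a program by the automorphism `z_m ↦ z_m - z_(o m) x_(v m)`, which fixes the origin.
Counting jets at the origin in the Grothendieck ring gives for the zeta functions (without the power of `𝕃`
in front)

`(1 - 𝕃⁻ᵏ T) Z_(I + (z))(T) = (1 - 𝕃⁻ᵏ) T + (1 - T) Z_I(𝕃⁻ᵏ T)`, `k = κ`,

without resolution of singularities and without division in `𝓜`, which may have zero divisors; so a
rational number `s ≠ κ, 0` is a pole of `Z_I` if and only if `s - κ` is a pole of `Z_(I + (z))`. For the
functional equations: `b` satisfies a local functional equation of `f` if and only if `(s + 1) b(s)`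
satisfies one of the polynomial `∑ y_j f_j`, and the addition of `∑ w_m z_m` shifts `b` by `κ`. The number
`s = κ` is a pole of no zeta function by the formula of the problem, but this is not used: it is
covered by a program with `κ + 1` nodes.
-/

set_option autoImplicit false

namespace Pool.Agent.Results.MP_4e5fcd_ag.BinomialReductionOrigin

open MvPolynomial Pool.Agent.Q49.BR
open Pool.Agent.Q223.ID (gens gensF gensF_ne gensF_coeff)
open Pool.Agent.Q223.MM (Forest coeffs)
open Pool.Agent.TH192.MT (zetaJ)
open Pool.Agent.W375.MG (IsPole)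
open Pool.Agent.Y229 (IsLocalBI)

/-- **Q1 is equivalent to its case of ideals generated by linear forms and binomials
`z_m - z_(o m) x_(v m)` with log canonical threshold larger than `N`.**

`zetaJ f` is the local motivic zeta function `Z_I^mot(T)` of the ideal generated by the `f j`, and
`IsPole Z s` says that `𝕃 ^ (-s)` is a pole of `Z`, as in the problem: `Z` is not in the ring
generated by `𝓜[T]` and the `1 / (1 - 𝕃 ^ a T ^ b)`, `b > 0`, `a / b ≠ s`. `IsLocalBI f b` is the functional
equation of Budur, Mustata and Saito for `b`, with differential operators with formal power series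
coefficients at the origin; the roots `α` of the Bernstein-Sato polynomial of the ideal near the origin give
the eigenvalues `exp(2 π i α)` in Q1. `WeakPoles f` (Q1 for the ideal): for every pole `s` and every such
`b ≠ 0` there is an integer `k` with `b(s + k) = 0`. `StrongPoles f`: every pole is a root of every such `b`.
`LctGtO N f`: some such `b ≠ 0` has only roots with real part `< -N`.

`gens o v a c` is the family `a_j + ∑_m c_(j, m) z_m`, `z_m - z_(o m) x_(v m)` (`z_none = 1`).
`Forest o`: `o m = some m'` implies `m' < m`. `t ∈ coeffs S`: `t = 0` or `t ∈ S` or `-t ∈ S`.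
`Carries κ f F`: `s ↦ s - κ` takes the poles `s ≠ κ` of `zetaJ f` to poles of `zetaJ F`, and its inverse
takes the poles of `zetaJ F` to poles `s` of `zetaJ f` or to `0`, and `IsLocalBI f b` implies
`IsLocalBI F (b(s + κ))`.

First part: for every family `f`, every `N` and all large `κ` there is a program with `κ` nodes whose
family `F_κ` is in this relation to `f`, and the conjecture for `F_κ` and `F_κ'` with `κ ≠ κ'` implies the
conjecture for `f`. Second and third part: the equivalence, for both forms of the conjecture. -/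
theorem result (S : Set ℂ) (hS : (1 : ℂ) ∈ AddSubgroup.closure S) (N : ℕ) :
    (∀ (n r : ℕ) (f : Fin r → MvPolynomial (Fin n) ℂ), (∃ j, f j ≠ 0) →
      (∀ j, coeff 0 (f j) = 0) → (∀ j d, coeff d (f j) ∈ AddSubgroup.closure S) →
      ∃ (κ₀ : ℕ) (o : ∀ κ : ℕ, Fin κ → Option (Fin κ)) (v : ∀ κ : ℕ, Fin κ → Fin n)
        (c : ∀ κ : ℕ, Fin r → Fin κ → ℂ),
        (∀ κ, κ₀ ≤ κ → 0 < κ ∧ Forest (o κ) ∧ (∀ j m, c κ j m ∈ coeffs S) ∧
          LctGtO N (gens (o κ) (v κ) (fun _ => 0) (c κ)) ∧
          Carries κ f (gens (o κ) (v κ) (fun _ => 0) (c κ))) ∧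
        ∀ κ κ', κ₀ ≤ κ → κ₀ ≤ κ' → κ ≠ κ' →
          (WeakPoles (gens (o κ) (v κ) (fun _ => 0) (c κ)) →
            WeakPoles (gens (o κ') (v κ') (fun _ => 0) (c κ')) → WeakPoles f) ∧
          (StrongPoles (gens (o κ) (v κ) (fun _ => 0) (c κ)) →
            StrongPoles (gens (o κ') (v κ') (fun _ => 0) (c κ')) → StrongPoles f)) ∧
    ((∀ (n r : ℕ) (f : Fin r → MvPolynomial (Fin n) ℂ), (∃ j, f j ≠ 0) →
        (∀ j, coeff 0 (f j) = 0) → (∀ j d, coeff d (f j) ∈ AddSubgroup.closure S) →
        WeakPoles f) ↔
      ∀ (n r κ : ℕ) (o : Fin κ → Option (Fin κ)) (v : Fin κ → Fin n)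
        (c : Fin r → Fin κ → ℂ), 0 < κ → Forest o → (∀ j m, c j m ∈ coeffs S) →
        LctGtO N (gens o v (fun _ => 0) c) → WeakPoles (gens o v (fun _ => 0) c)) ∧
    ((∀ (n r : ℕ) (f : Fin r → MvPolynomial (Fin n) ℂ), (∃ j, f j ≠ 0) →
        (∀ j, coeff 0 (f j) = 0) → (∀ j d, coeff d (f j) ∈ AddSubgroup.closure S) →
        StrongPoles f) ↔
      ∀ (n r κ : ℕ) (o : Fin κ → Option (Fin κ)) (v : Fin κ → Fin n)
        (c : Fin r → Fin κ → ℂ), 0 < κ → Forest o → (∀ j m, c j m ∈ coeffs S) →
        LctGtO N (gens o v (fun _ => 0) c) → StrongPoles (gens o v (fun _ => 0) c)) := by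
  classical
  refine ⟨fun n r f hf h0 hfS => ?_, ⟨?_, ?_⟩, ⟨?_, ?_⟩⟩
  · obtain ⟨κ₀, h⟩ := reduceG S N n r f hf h0 hfS
    have hn : 0 < n := by
      rcases Nat.eq_zero_or_pos n with rfl | h
      · exfalso
        obtain ⟨j, hj⟩ := hf
        apply hj
        rw [eq_C_of_isEmpty (f j), h0, C_0]
      · exact h
    choose o v c h1 using h
    refine ⟨κ₀, fun κ => if hk : κ₀ ≤ κ then o κ hk else fun _ => none,
      fun κ => if hk : κ₀ ≤ κ then v κ hk else fun _ => ⟨0, hn⟩,
      fun κ => if hk : κ₀ ≤ κ then c κ hk else fun _ _ => 0, fun κ hk => ?_,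
      fun κ κ' hk hk' hne => ?_⟩
    · simp only [dif_pos hk]
      exact h1 κ hk
    · simp only [dif_pos hk, dif_pos hk']
      exact transfer hne (h1 κ hk).2.2.2.2 (h1 κ' hk').2.2.2.2
  · intro h n r κ o v c hκ _ hc _
    exact (gensF_back o v c hκ).1 (h _ _ (gensF o v (fun _ => 0) c)
      (gensF_ne o v (fun _ => 0) c hκ) (gensF_org o v c)
      fun j d => gensF_coeff hS o v (fun _ => 0) c (fun _ => AddSubgroup.zero_mem _) hc j d)
  · intro h n r f hf h0 hfS
    obtain ⟨κ₀, h1⟩ := reduceG S N n r f hf h0 hfS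
    obtain ⟨o, v, c, g1, g2, g3, g4, g5⟩ := h1 κ₀ le_rfl
    obtain ⟨o', v', c', k1, k2, k3, k4, k5⟩ := h1 (κ₀ + 1) (Nat.le_succ _)
    exact (transfer (Nat.ne_of_lt (Nat.lt_succ_self κ₀)) g5 k5).1 (h _ _ _ o v c g1 g2 g3 g4)
      (h _ _ _ o' v' c' k1 k2 k3 k4)
  · intro h n r κ o v c hκ _ hc _
    exact (gensF_back o v c hκ).2 (h _ _ (gensF o v (fun _ => 0) c)
      (gensF_ne o v (fun _ => 0) c hκ) (gensF_org o v c)
      fun j d => gensF_coeff hS o v (fun _ => 0) c (fun _ => AddSubgroup.zero_mem _) hc j d)
  · intro h n r f hf h0 hfS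
    obtain ⟨κ₀, h1⟩ := reduceG S N n r f hf h0 hfS
    obtain ⟨o, v, c, g1, g2, g3, g4, g5⟩ := h1 κ₀ le_rfl
    obtain ⟨o', v', c', k1, k2, k3, k4, k5⟩ := h1 (κ₀ + 1) (Nat.le_succ _)
    exact (transfer (Nat.ne_of_lt (Nat.lt_succ_self κ₀)) g5 k5).2 (h _ _ _ o v c g1 g2 g3 g4)
      (h _ _ _ o' v' c' k1 k2 k3 k4)

end Pool.Agent.Results.MP_4e5fcd_ag.BinomialReductionOrigin
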