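import Pool.Agent.Q49.CO.Main

set_option autoImplicit false

/-! # The strong motivic monodromy conjecture for cones over projective schemes which are smooth
outside finitely many points

Let `I = (f_j)` be an ideal generated by forms of the same degree `d > 0` in `x₀, …, xₙ`, of which
`n + 1` are algebraically independent. Let `Y ⊆ ℙ ^ n` be the scheme defined by the `f_j`, and
suppose that `Y` is smooth outside a finite set `Q` of points (it may have several components, of
different dimensions, and `I` may be far from saturated). For the points `q ∈ Q` suppose that the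
germ of the ideal at `q`, an ideal in `n` variables, satisfies the strong monodromy conjecture.
Then `I` satisfies the strong monodromy conjecture at the origin of `ℂ ^ (n + 1)`: the local motivic
zeta function of `I`, defined with jets, in `K₀(Var)[𝕃⁻¹]⟦T⟧`, lies in the ring generated by `T` and
the `1 / (1 - 𝕃 ^ a T ^ b)`, where `(a, b)` is `(-(n + 1), d)`, or `(-c, 1)`, `c` the codimension of
`Y` at one of its smooth points, or a pair of one of the germs; and all these `a / b` are roots of
the local Bernstein-Sato polynomial of the ideal `I` at the origin.

There is no condition on the degree, the number of variables, or the geometry of `Y`; the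
assumption on algebraic independence says that the rational map `(f_j)` from the affine space is
generically finite. It always holds for the truncations `𝔪 J` of an ideal `J ≠ 0` generated by forms
of the same degree; hence (second part) if `J` defines a smooth projective scheme then `𝔪 J`
satisfies the conjecture.

The proof. Jets: the arcs through the origin are `t · γ`, which gives
`Z_0 = 𝕃 ^ (-n-1) T ^ d (Z_0 + Z_{≠ 0})`, where `Z_{≠ 0}` is the part of the arcs `γ` with
`γ(0) ≠ 0`. The set of the smooth points is a finite union of strata on each of which `c` of the
`f_j` generate the ideal and have independent differentials; there one counts jets level by level.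
On the line of a point `q ∈ Q` the arcs are `a(t) (1, q + y(t))`, which gives `(𝕃 - 1) 𝕃⁻¹` times
the local zeta function of the germ.
Roots: `-(n + 1) / d` and `-c` belong to Rees divisors (for `-c` the exceptional divisor of the
blow-up of `Y` at a smooth point, in formal coordinates); a functional equation of the forms gives
one of the germ with the same `b`; and a root which is forced by all global functional equations of
the forms is forced by the local ones (homogeneity). -/

namespace Pool.Agent.Results.MP_4e5fcd_ag.ConesSmoothOutsidePoints

open MvPolynomial Pool.Agent.Q49.CO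

/-- **The strong motivic monodromy conjecture for cones.** (1) Let `f_j` be forms of degree `d > 0`
in `x₀, …, xₙ`, such that the Jacobian determinant of some `n + 1` of them is not zero. Suppose that
at every point `p ≠ 0` with `f_j(p) = 0` for all `j`, the scheme defined by the `f_j` is smooth
(`SmoothAt f c p`: near `p` it is defined by `c` of the `f_j`, which have a Jacobian minor of size
`c` not zero at `p`), or `p = p₀ (1, q)` with `p₀ ≠ 0` and `q` in a finite set `Q`. For `q ∈ Q` let
the germ, generated by the `f_j(1, q + y)` (`germ`), satisfy the strong motivic monodromy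
conjecture with the finite set `T q` of pairs (`StrongMC`). Then the ideal `(f_j)` satisfies the
strong motivic monodromy conjecture at the origin, with the set `conePairs` of the pairs
`(-(n + 1), d)`, `(-c, 1)` for the codimensions `c` at the smooth points `p ≠ 0`, and the
pairs in the `T q`, `q ∈ Q`. (2) Let `h_j` be forms of the same degree, not all zero, whose scheme is
smooth at all its points `p ≠ 0`. Then the ideal generated by the products `x_i h_j` satisfies the
strong motivic monodromy conjecture at the origin. -/
theorem result :
    (∀ {n : ℕ} {J : Type} [Fintype J] (f : J → MvPolynomial (Fin (n + 1)) ℂ) (d : ℕ) (_ : 0 < d)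
      (_ : ∀ j, (f j).IsHomogeneous d)
      (_ : ∃ e : Fin (n + 1) → J, (Matrix.of fun s t => pderiv s (f (e t))).det ≠ 0)
      (Q : Finset (Fin n → ℂ)) (T : (Fin n → ℂ) → Finset (ℤ × ℤ))
      (_ : ∀ q ∈ Q, StrongMC (fun j => germ q (f j)) (T q))
      (_ : ∀ p : Fin (n + 1) → ℂ, p ≠ 0 → (∀ j, eval p (f j) = 0) → (∃ c, SmoothAt f c p) ∨
        ∃ q ∈ Q, p 0 ≠ 0 ∧ ∀ i : Fin n, p i.succ = p 0 * q i)
      (C : Finset ℕ) (_ : ∀ c, c ∈ C ↔ ∃ p, p ≠ 0 ∧ SmoothAt f c p),
      StrongMC f (conePairs d C Q T)) ∧
    ∀ {n : ℕ} {J : Type} [Fintype J] (h : J → MvPolynomial (Fin (n + 1)) ℂ) (k : ℕ)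
      (_ : ∀ j, (h j).IsHomogeneous k) (_ : ∃ j, h j ≠ 0)
      (_ : ∀ p : Fin (n + 1) → ℂ, p ≠ 0 → (∀ j, eval p (h j) = 0) → ∃ c, SmoothAt h c p),
      ∃ S : Finset (ℤ × ℤ), StrongMC (fun x : Fin (n + 1) × J => X x.1 * h x.2) S := by
  refine ⟨?_, ?_⟩
  · intro n J _ f d hd hf hg Q T hT h C hC
    exact cone_strong f d hd hf hg Q T hT h C hC
  · intro n J _ h k hh h0 hs
    obtain ⟨C, -, hC⟩ := trunc_strong h k hh h0 hs
    exact ⟨_, hC⟩

end Pool.Agent.Results.MP_4e5fcd_ag.ConesSmoothOutsidePoints
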